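import Mathlib

/-!
# Relative computability of total functions, and infinitely-often-equal mass problems
-/

namespace Q206.Ioe

open Filter Encodable

/-- `RecT X u`: the total function `u` is Turing reducible to the total function `X`. -/
def RecT (X u : ℕ → ℕ) : Prop :=
  Nat.RecursiveIn {(X : ℕ →. ℕ)} (u : ℕ →. ℕ)

variable {X : ℕ → ℕ}

theorem RecT.of_computable {u : ℕ → ℕ} (h : Computable u) : RecT X u :=
  Nat.Partrec.recursiveIn (Partrec.nat_iff.1 h)

theorem RecT.oracle : RecT X X := Nat.RecursiveIn.oracle _ (Set.mem_singleton _)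

theorem RecT.comp {f g : ℕ → ℕ} (hf : RecT X f) (hg : RecT X g) :
    RecT X (fun n => f (g n)) := by
  refine (Nat.RecursiveIn.comp hf hg).of_eq ?_
  intro n
  exact Part.bind_some _ _

theorem RecT.pair {f g : ℕ → ℕ} (hf : RecT X f) (hg : RecT X g) :
    RecT X (fun n => Nat.pair (f n) (g n)) := by
  refine (Nat.RecursiveIn.pair hf hg).of_eq ?_
  intro n
  simp [Seq.seq]

theorem RecT.trans {Y Z : ℕ → ℕ} (h1 : RecT X Y) (h2 : RecT Y Z) : RecT X Z := by
  refine Nat.RecursiveIn.subst h2 ?_
  intro g hg
  rw [Set.mem_singleton_iff] at hg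
  rw [hg]
  exact h1

/-- list of the first `n` values of `X` -/
def hist (X : ℕ → ℕ) (n : ℕ) : List ℕ := (List.range n).map X

theorem hist_succ (X : ℕ → ℕ) (n : ℕ) : hist X (n + 1) = hist X n ++ [X n] := by
  simp [hist, List.range_succ]

theorem computable_decodeList : Computable (fun n : ℕ => (decode (α := List ℕ) n).getD []) :=
  Computable.option_getD Computable.decode (Computable.const [])

theorem recT_hist : RecT X (fun n => encode (hist X n)) := by
  have happ : Computable (fun q : ℕ => encode
      (((decode (α := List ℕ) q.unpair.1).getD []) ++ [q.unpair.2])) := by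
    refine Computable.encode.comp ?_
    refine Computable.list_append.comp (computable_decodeList.comp
      (Computable.fst.comp Computable.unpair)) ?_
    exact Computable.list_cons.comp (Computable.snd.comp Computable.unpair)
      (Computable.const [])
  have hstep : RecT X (fun q : ℕ => (fun q : ℕ => encode
      (((decode (α := List ℕ) q.unpair.1).getD []) ++ [q.unpair.2]))
      (Nat.pair q.unpair.2.unpair.2 (X q.unpair.2.unpair.1))) := by
    refine (RecT.of_computable happ).comp ?_
    refine RecT.pair (RecT.of_computable ?_) (RecT.comp RecT.oracle (RecT.of_computable ?_))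
    · exact Computable.snd.comp (Computable.unpair.comp (Computable.snd.comp Computable.unpair))
    · exact Computable.fst.comp (Computable.unpair.comp (Computable.snd.comp Computable.unpair))
  have h0 : RecT X (fun _ : ℕ => encode ([] : List ℕ)) :=
    RecT.of_computable (Computable.const _)
  have hprec := Nat.RecursiveIn.prec h0 hstep
  have hpair : RecT X (fun n : ℕ => Nat.pair 0 n) :=
    RecT.of_computable (Primrec₂.natPair.comp (Primrec.const 0) Primrec.id).to_comp
  refine (Nat.RecursiveIn.comp hprec hpair).of_eq ?_
  intro n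
  refine (Part.bind_some _ _).trans ?_
  simp only [Nat.unpair_pair]
  induction n with
  | zero => simp [hist]
  | succ n ih =>
    simp only at ih ⊢
    rw [ih]
    refine (Part.bind_some _ _).trans ?_
    refine congrArg Part.some ?_
    simp [hist_succ]

/-- a computable function of the argument and of an `X`-computable list -/
theorem recT_list {L : ℕ → List ℕ} (hL : RecT X (fun i => encode (L i)))
    {φ : ℕ → ℕ} (hφ : Computable φ) {G : ℕ → List ℕ → ℕ} (hG : Computable₂ G) :
    RecT X (fun j => G j (L (φ j))) := by
  have h1 : Computable (fun q : ℕ => G q.unpair.1 ((decode (α := List ℕ) q.unpair.2).getD [])) :=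
    hG.comp (Computable.fst.comp Computable.unpair)
      (computable_decodeList.comp (Computable.snd.comp Computable.unpair))
  have h2 := (RecT.of_computable (X := X) h1).comp
    (RecT.pair (RecT.of_computable Computable.id) (hL.comp (RecT.of_computable hφ)))
  simpa using h2

/-- the same, with list values -/
theorem recT_list' {L : ℕ → List ℕ} (hL : RecT X (fun i => encode (L i)))
    {φ : ℕ → ℕ} (hφ : Computable φ) {G : ℕ → List ℕ → List ℕ} (hG : Computable₂ G) :
    RecT X (fun j => encode (G j (L (φ j)))) :=
  recT_list (G := fun j l => encode (G j l)) hL hφ (Computable.encode.comp hG)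

/-- search for a witness of a decidable predicate -/
theorem computable_find {α : Type*} [Primcodable α] {P : α → ℕ → Prop} [∀ a, DecidablePred (P a)]
    (hP : Computable₂ (fun a s => decide (P a s))) (hex : ∀ a, ∃ s, P a s) :
    Computable (fun a => Nat.find (hex a)) := by
  have h1 : Partrec (fun a => Nat.rfind ((fun s => decide (P a s) : ℕ → Bool) : ℕ →. Bool)) :=
    Partrec.rfind hP.partrec₂
  refine h1.of_eq ?_
  intro a
  refine Part.eq_some_iff.2 ?_
  refine Nat.mem_rfind.2 ⟨?_, ?_⟩
  · have := Nat.find_spec (hex a)
    simp [this]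
  · intro m hm
    have := Nat.find_min (hex a) hm
    simp [this]

/-- The mass problem `IOE(h)`. -/
def IOE (h : ℕ → ℕ) : Set (ℕ → ℕ) :=
  {f | ∀ r : ℕ → ℕ, Computable r → (∀ n, r n < h n) → {n | f n = r n}.Infinite}

theorem mem_IOE {h f : ℕ → ℕ} : f ∈ IOE h ↔
    ∀ r : ℕ → ℕ, Computable r → (∀ n, r n < h n) → {n | f n = r n}.Infinite := Iff.rfl

end Q206.Ioe
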