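import Pool.Agent.Q206.Ioe.Basic

/-!
# The two-step frequency trick
-/

namespace Q206.Ioe

open Filter Encodable

theorem primrec_pow : Primrec₂ ((· ^ ·) : ℕ → ℕ → ℕ) :=
  Primrec₂.unpaired'.1 Nat.Primrec.pow

/-! ### Numbers from digits -/

/-- the number below `F ^ J` whose base-`F` digits are `r st, r (st + 1), …` -/
def cod (F : ℕ) (r : ℕ → ℕ) : ℕ → ℕ
  | 0 => 0
  | J + 1 => cod F r J + F ^ J * r J

theorem cod_lt {F : ℕ} {r : ℕ → ℕ} (J : ℕ) (hr : ∀ l < J, r l < F) : cod F r J < F ^ J := by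
  induction J with
  | zero => simp [cod]
  | succ J ih =>
    have ih' := ih (fun l hl => hr l (by omega))
    simp only [cod, pow_succ]
    have h1 : F ^ J * r J + F ^ J ≤ F ^ J * F := by
      have := Nat.mul_le_mul_left (F ^ J) (hr J (by omega))
      rw [Nat.succ_eq_add_one, mul_add, mul_one] at this
      exact this
    omega

theorem cod_digit {F : ℕ} {r : ℕ → ℕ} (J l : ℕ) (hl : l < J) (hr : ∀ l < J, r l < F) :
    cod F r J / F ^ l % F = r l := by
  have hF : 0 < F := lt_of_le_of_lt (Nat.zero_le _) (hr l hl)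
  induction J with
  | zero => omega
  | succ J ih =>
    simp only [cod]
    rcases Nat.lt_succ_iff_lt_or_eq.1 hl with h | h
    · obtain ⟨k, rfl⟩ : ∃ k, J = l + (k + 1) := ⟨J - l - 1, by omega⟩
      rw [pow_add, mul_assoc, Nat.add_mul_div_left _ _ (Nat.pos_of_ne_zero (by positivity)),
        pow_succ, mul_assoc, mul_comm (F ^ k), mul_assoc, Nat.add_mul_mod_self_left]
      exact ih (by omega) (fun l hl => hr l (by omega))
    · subst h
      rw [Nat.add_mul_div_left _ _ (Nat.pos_of_ne_zero (by positivity)),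
        Nat.div_eq_of_lt (cod_lt l (fun l hl => hr l (by omega))), zero_add,
        Nat.mod_eq_of_lt (hr l (by omega))]

theorem mod_digit (x F : ℕ) {J l : ℕ} (hl : l < J) :
    x % F ^ J / F ^ l % F = x / F ^ l % F := by
  obtain ⟨k, rfl⟩ : ∃ k, J = l + (k + 1) := ⟨J - l - 1, by omega⟩
  rw [pow_add, Nat.mod_mul_right_div_self, pow_succ,
    Nat.mod_mod_of_dvd _ (Dvd.intro_left _ rfl)]

theorem exists_lt_rel {β : Type*} [Primcodable β] {R : ℕ → β → Prop} (hf : PrimrecRel R) :
    PrimrecRel fun (n : ℕ) (y : β) => ∃ x < n, R x y :=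
  (hf.exists_mem_list.comp (Primrec.list_range.comp Primrec.fst) Primrec.snd).of_eq (by simp)

/-! ### The frequent residues and the first selection -/

/-- number of entries of `L` congruent to `x` -/
def freq (F J : ℕ) (L : List ℕ) (x : ℕ) : ℕ := (L.filter (fun y => y % F ^ J = x % F ^ J)).length

/-- `s` hits every frequent residue -/
def Sel (a : (ℕ × ℕ) × List ℕ) (s : ℕ) : Prop :=
  (∀ x ∈ a.2, freq a.1.1 a.1.2 a.2 x ≤ a.1.2 ∨
    ∃ l < a.1.2, s / a.1.1 ^ l % a.1.1 = x / a.1.1 ^ l % a.1.1) ∨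
  a.1.2 * a.1.2 < a.2.length ∨ a.1.1 = 0

instance (a : (ℕ × ℕ) × List ℕ) : DecidablePred (Sel a) := fun s => by
  unfold Sel; infer_instance

theorem exists_sel (a : (ℕ × ℕ) × List ℕ) : ∃ s, Sel a s := by
  obtain ⟨⟨F, J⟩, L⟩ := a
  by_cases hF : F = 0
  · exact ⟨0, Or.inr (Or.inr hF)⟩
  by_cases hL : J * J < L.length
  · exact ⟨0, Or.inr (Or.inl hL)⟩
  push Not at hL
  have hFpos : 0 < F := Nat.pos_of_ne_zero hF
  set M : List ℕ := L.map (· % F ^ J) with hM
  set S : Finset ℕ := M.toFinset.filter (fun v => J < M.count v) with hS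
  have hfreq : ∀ x, freq F J L x = M.count (x % F ^ J) := by
    intro x
    rw [hM, List.count, List.countP_map, freq, List.countP_eq_length_filter]
    congr 1
  have hcard : S.card ≤ J := by
    have h1 : (J + 1) * S.card ≤ ∑ v ∈ S, M.count v := by
      rw [mul_comm, ← smul_eq_mul]
      apply Finset.card_nsmul_le_sum
      intro v hv
      exact (Finset.mem_filter.1 hv).2
    have h2 : ∑ v ∈ S, M.count v ≤ ∑ v ∈ M.toFinset, M.count v :=
      Finset.sum_le_sum_of_subset (Finset.filter_subset _ _)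
    have h3 : ∑ v ∈ M.toFinset, M.count v = M.length := List.sum_toFinset_count_eq_length M
    have h4 : M.length = L.length := by simp [hM]
    by_contra hcon
    push Not at hcon
    have h5 : (J + 1) * (J + 1) ≤ (J + 1) * S.card := Nat.mul_le_mul_left _ hcon
    nlinarith
  set T : List ℕ := S.toList with hT
  have hTlen : T.length = S.card := by simp [hT]
  refine ⟨cod F (fun l => T.getD l 0 / F ^ l % F) J, Or.inl ?_⟩
  intro x hx
  by_cases hc : freq F J L x ≤ J
  · exact Or.inl hc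
  right
  push Not at hc
  rw [hfreq] at hc
  have hmem : x % F ^ J ∈ T := by
    rw [hT, Finset.mem_toList, hS, Finset.mem_filter]
    refine ⟨?_, hc⟩
    rw [List.mem_toFinset, hM, List.mem_map]
    exact ⟨x, hx, rfl⟩
  obtain ⟨l, hl, hTl⟩ := List.mem_iff_getElem.1 hmem
  refine ⟨l, by simp only; omega, ?_⟩
  simp only
  rw [cod_digit J l (by omega) (fun l _ => Nat.mod_lt _ hFpos)]
  rw [List.getD_eq_getElem _ _ hl, hTl, mod_digit _ _ (by omega)]

theorem primrec_freq : Primrec (fun q : ((ℕ × ℕ) × List ℕ) × ℕ =>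
    freq q.1.1.1 q.1.1.2 q.1.2 q.2) := by
  unfold freq
  have hR : PrimrecRel (fun (y : ℕ) (q : ((ℕ × ℕ) × List ℕ) × ℕ) =>
      y % q.1.1.1 ^ q.1.1.2 = q.2 % q.1.1.1 ^ q.1.1.2) := by
    have hp : Primrec (fun z : ℕ × (((ℕ × ℕ) × List ℕ) × ℕ) => z.2.1.1.1 ^ z.2.1.1.2) :=
      primrec_pow.comp
        (Primrec.fst.comp (Primrec.fst.comp (Primrec.fst.comp Primrec.snd)))
        (Primrec.snd.comp (Primrec.fst.comp (Primrec.fst.comp Primrec.snd)))
    exact Primrec.eq.comp (Primrec.nat_mod.comp Primrec.fst hp)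
      (Primrec.nat_mod.comp (Primrec.snd.comp Primrec.snd) hp)
  exact Primrec.list_length.comp (hR.listFilter.comp (Primrec.snd.comp Primrec.fst) Primrec.id)

theorem primrec_sel : PrimrecRel Sel := by
  unfold Sel
  -- digit equation
  have hE : PrimrecRel (fun (l : ℕ) (q : ℕ × (((ℕ × ℕ) × List ℕ) × ℕ)) =>
      q.2.2 / q.2.1.1.1 ^ l % q.2.1.1.1 = q.1 / q.2.1.1.1 ^ l % q.2.1.1.1) := by
    have hF : Primrec (fun z : ℕ × (ℕ × (((ℕ × ℕ) × List ℕ) × ℕ)) => z.2.2.1.1.1) :=
      Primrec.fst.comp (Primrec.fst.comp (Primrec.fst.comp (Primrec.snd.comp Primrec.snd)))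
    have hp : Primrec (fun z : ℕ × (ℕ × (((ℕ × ℕ) × List ℕ) × ℕ)) => z.2.2.1.1.1 ^ z.1) :=
      primrec_pow.comp hF Primrec.fst
    refine Primrec.eq.comp
      (Primrec.nat_mod.comp (Primrec.nat_div.comp ?_ hp) hF)
      (Primrec.nat_mod.comp (Primrec.nat_div.comp ?_ hp) hF)
    · exact Primrec.snd.comp (Primrec.snd.comp Primrec.snd)
    · exact Primrec.fst.comp Primrec.snd
  have hE' := exists_lt_rel hE
  have hR : PrimrecRel (fun (x : ℕ) (q : ((ℕ × ℕ) × List ℕ) × ℕ) =>
      freq q.1.1.1 q.1.1.2 q.1.2 x ≤ q.1.1.2 ∨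
        ∃ l < q.1.1.2, q.2 / q.1.1.1 ^ l % q.1.1.1 = x / q.1.1.1 ^ l % q.1.1.1) := by
    refine PrimrecPred.or ?_ ?_
    · refine Primrec.nat_le.comp (primrec_freq.comp (Primrec.pair (Primrec.fst.comp Primrec.snd)
        Primrec.fst)) ?_
      exact Primrec.snd.comp (Primrec.fst.comp (Primrec.fst.comp Primrec.snd))
    · exact hE'.comp
        (Primrec.snd.comp (Primrec.fst.comp (Primrec.fst.comp Primrec.snd))) Primrec.id
  refine PrimrecPred.or ?_ (PrimrecPred.or ?_ ?_)
  · exact hR.forall_mem_list.comp (Primrec.snd.comp Primrec.fst) Primrec.id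
  · have hJ : Primrec (fun q : ((ℕ × ℕ) × List ℕ) × ℕ => q.1.1.2) :=
      Primrec.snd.comp (Primrec.fst.comp Primrec.fst)
    exact Primrec.nat_lt.comp (Primrec.nat_mul.comp hJ hJ)
      (Primrec.list_length.comp (Primrec.snd.comp Primrec.fst))
  · exact Primrec.eq.comp (Primrec.fst.comp (Primrec.fst.comp Primrec.fst)) (Primrec.const 0)

/-- the selected number -/
def selNum (a : (ℕ × ℕ) × List ℕ) : ℕ := Nat.find (exists_sel a)

theorem selNum_spec (a : (ℕ × ℕ) × List ℕ) : Sel a (selNum a) := Nat.find_spec (exists_sel a)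

theorem computable_selNum : Computable selNum := by
  refine computable_find ?_ exists_sel
  have := primrec_sel.decide
  exact this.to_comp

/-! ### Blocks -/

/-- block number of `j`: `j ∈ [2 ^ i - 1, 2 ^ (i + 1) - 1)` -/
def blk (j : ℕ) : ℕ := Nat.log 2 (j + 1)

/-- position in the block -/
def pos (j : ℕ) : ℕ := j + 1 - 2 ^ blk j

theorem blk_eq {i l : ℕ} (hl : l < 2 ^ i) : blk (2 ^ i - 1 + l) = i := by
  have h := Nat.one_le_two_pow (n := i)
  unfold blk
  rw [show 2 ^ i - 1 + l + 1 = 2 ^ i + l by omega]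
  apply (Nat.log_eq_iff (Or.inr ⟨by norm_num, by omega⟩)).2
  rw [pow_succ]
  omega

theorem pos_eq {i l : ℕ} (hl : l < 2 ^ i) : pos (2 ^ i - 1 + l) = l := by
  have h := Nat.one_le_two_pow (n := i)
  unfold pos
  rw [blk_eq hl]
  omega

theorem primrec_log {b : ℕ} (hb : 1 < b) : Primrec (fun n => Nat.log b n) := by
  have hR : PrimrecRel (fun (n k : ℕ) => b ^ k ≤ n) :=
    Primrec.nat_le.comp (primrec_pow.comp (Primrec.const b) Primrec.snd) Primrec.fst
  refine (Primrec.nat_findGreatest Primrec.id hR).of_eq ?_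
  intro n
  rcases Nat.eq_zero_or_pos n with h | h
  · subst h; simp
  · apply le_antisymm
    · apply Nat.le_log_of_pow_le hb
      rw [id]
      exact Nat.findGreatest_spec (P := fun k => b ^ k ≤ n) (Nat.zero_le n)
        (by show b ^ 0 ≤ n; rw [pow_zero]; omega)
    · apply Nat.le_findGreatest
      · exact Nat.log_le_self b n
      · exact Nat.pow_log_le_self b h.ne'

theorem primrec_blk : Primrec blk := (primrec_log (by norm_num)).comp Primrec.succ

theorem primrec_pos : Primrec pos :=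
  Primrec.nat_sub.comp Primrec.succ (primrec_pow.comp (Primrec.const 2) primrec_blk)

/-! ### Computability of the codes -/

theorem computable_cod {r : ℕ → ℕ} (hr : Computable r) :
    Computable (fun q : (ℕ × ℕ) × ℕ => cod q.1.1 (fun l => r (q.1.2 + l)) q.2) := by
  have h : Computable (fun q : (ℕ × ℕ) × ℕ =>
      Nat.rec (motive := fun _ => ℕ) 0 (fun l ih => ih + q.1.1 ^ l * r (q.1.2 + l)) q.2) := by
    refine Computable.nat_rec (h := fun (q : (ℕ × ℕ) × ℕ) (p : ℕ × ℕ) =>
      p.2 + q.1.1 ^ p.1 * r (q.1.2 + p.1)) Computable.snd (Computable.const 0) ?_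
    refine Primrec.nat_add.to_comp.comp (Computable.snd.comp Computable.snd) ?_
    refine Primrec.nat_mul.to_comp.comp ?_ (hr.comp ?_)
    · exact primrec_pow.to_comp.comp (Computable.fst.comp (Computable.fst.comp Computable.fst))
        (Computable.fst.comp Computable.snd)
    · exact Primrec.nat_add.to_comp.comp (Computable.snd.comp (Computable.fst.comp Computable.fst))
        (Computable.fst.comp Computable.snd)
  refine h.of_eq ?_
  intro q
  induction q.2 with
  | zero => simp [cod]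
  | succ n ih => simp only [cod]; rw [ih]

/-- code of the values of `r` on block `i` -/
def blockCode (F : ℕ → ℕ) (r : ℕ → ℕ) (i : ℕ) : ℕ :=
  cod (F i) (fun l => r (2 ^ i - 1 + l)) (2 ^ i)

theorem computable_blockCode {F r : ℕ → ℕ} (hF : Computable F) (hr : Computable r) :
    Computable (blockCode F r) := by
  have h2 : Computable (fun i : ℕ => 2 ^ i) :=
    (primrec_pow.comp (Primrec.const 2) Primrec.id).to_comp
  exact (computable_cod hr).comp (Computable.pair (Computable.pair hF
    (Primrec.nat_sub.to_comp.comp h2 (Computable.const 1))) h2)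

theorem finite_of_not_mem_IOE {h f : ℕ → ℕ} (hf : f ∉ IOE h) :
    ∃ r : ℕ → ℕ, Computable r ∧ (∀ n, r n < h n) ∧ ∃ N, ∀ n ≥ N, f n ≠ r n := by
  rw [mem_IOE] at hf
  push Not at hf
  obtain ⟨r, hr, hlt, hfin⟩ := hf
  refine ⟨r, hr, hlt, ?_⟩
  obtain ⟨N, hN⟩ := hfin.bddAbove
  refine ⟨N + 1, ?_⟩
  intro n hn he
  have := hN (a := n) he
  omega

/-- base-`F` digit of `s` at place `l` -/
def dig (F l s : ℕ) : ℕ := s / F ^ l % F

theorem primrec_dig : Primrec (fun q : (ℕ × ℕ) × ℕ => dig q.1.1 q.1.2 q.2) :=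
  Primrec.nat_mod.comp (Primrec.nat_div.comp Primrec.snd
    (primrec_pow.comp (Primrec.fst.comp Primrec.fst) (Primrec.snd.comp Primrec.fst)))
    (Primrec.fst.comp Primrec.fst)

/-- the `l`-th entry of `L` with residue `c` modulo `M` -/
def pick (M c l : ℕ) (L : List ℕ) : ℕ := (L.filter (fun y => y % M = c)).getD l 0

theorem primrec_pick : Primrec (fun q : ((ℕ × ℕ) × ℕ) × List ℕ => pick q.1.1.1 q.1.1.2 q.1.2 q.2) := by
  have hR : PrimrecRel (fun (y : ℕ) (q : ℕ × ℕ) => y % q.1 = q.2) :=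
    Primrec.eq.comp (Primrec.nat_mod.comp Primrec.fst (Primrec.fst.comp Primrec.snd))
      (Primrec.snd.comp Primrec.snd)
  exact (Primrec.list_getD 0).comp (hR.listFilter.comp Primrec.snd (Primrec.fst.comp Primrec.fst))
    (Primrec.snd.comp Primrec.fst)

/-- the first candidate -/
def cand1 (F : ℕ → ℕ) (j : ℕ) (l : List ℕ) : ℕ :=
  dig (F (blk j)) (pos j) (selNum ((F (blk j), 2 ^ blk j), l))

/-- the second candidate -/
def cand2 (F r : ℕ → ℕ) (j : ℕ) (l : List ℕ) : ℕ :=
  dig (F (blk j)) (2 ^ blk j + pos j)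
    (pick (F (blk j) ^ 2 ^ blk j) (blockCode F r (blk j)) (pos j) l)

theorem primrec_two_pow : Primrec (fun i : ℕ => 2 ^ i) :=
  primrec_pow.comp (Primrec.const 2) Primrec.id

theorem computable_cand1 {F : ℕ → ℕ} (hF : Computable F) : Computable₂ (cand1 F) := by
  have hFb : Computable (fun q : ℕ × List ℕ => F (blk q.1)) :=
    hF.comp (primrec_blk.to_comp.comp Computable.fst)
  have h2 : Computable (fun q : ℕ × List ℕ => 2 ^ blk q.1) :=
    (primrec_two_pow.comp (primrec_blk.comp Primrec.fst)).to_comp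
  have hp : Computable (fun q : ℕ × List ℕ => pos q.1) := (primrec_pos.comp Primrec.fst).to_comp
  exact primrec_dig.to_comp.comp (Computable.pair (Computable.pair hFb hp)
    (computable_selNum.comp (Computable.pair (Computable.pair hFb h2) Computable.snd)))

theorem computable_cand2 {F r : ℕ → ℕ} (hF : Computable F) (hr : Computable r) :
    Computable₂ (cand2 F r) := by
  have hFb : Computable (fun q : ℕ × List ℕ => F (blk q.1)) :=
    hF.comp (primrec_blk.to_comp.comp Computable.fst)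
  have h2 : Computable (fun q : ℕ × List ℕ => 2 ^ blk q.1) :=
    (primrec_two_pow.comp (primrec_blk.comp Primrec.fst)).to_comp
  have hp : Computable (fun q : ℕ × List ℕ => pos q.1) := (primrec_pos.comp Primrec.fst).to_comp
  have hc : Computable (fun q : ℕ × List ℕ => blockCode F r (blk q.1)) :=
    (computable_blockCode hF hr).comp (primrec_blk.comp Primrec.fst).to_comp
  exact primrec_dig.to_comp.comp (Computable.pair (Computable.pair hFb
    (Primrec.nat_add.to_comp.comp h2 hp))
    (primrec_pick.to_comp.comp (Computable.pair (Computable.pair (Computable.pair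
      (primrec_pow.to_comp.comp hFb h2) hc) hp) Computable.snd)))

/-- **The two-step frequency trick.**  Block `i` consists of `2 ^ i` arguments.  If `X` computes,
for each `i`, a list `L i` of at most `4 ^ i` numbers, such that every computable function `c`
with `c i < (F i) ^ (2 * 2 ^ i)` has infinitely often `c i ∈ L i`, then `X` computes an element
of `IOE` with the bound `F i` on all of block `i`. -/
theorem lemmaA {X : ℕ → ℕ} {F : ℕ → ℕ} (hF : Computable F) {L : ℕ → List ℕ}
    (hL : RecT X (fun i => encode (L i))) (hlen : ∀ i, (L i).length ≤ 2 ^ i * 2 ^ i)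
    (hcap : ∀ c : ℕ → ℕ, Computable c → (∀ i, c i < F i ^ (2 * 2 ^ i)) →
      ∀ N, ∃ i ≥ N, c i ∈ L i) :
    ∃ u, RecT X u ∧ u ∈ IOE (fun j => F (blk j)) := by
  by_cases hu1 : (fun j => cand1 F j (L (blk j))) ∈ IOE (fun j => F (blk j))
  · exact ⟨_, recT_list hL primrec_blk.to_comp (computable_cand1 hF), hu1⟩
  obtain ⟨r1, hr1, hlt1, N1, hN1⟩ := finite_of_not_mem_IOE hu1
  have hc1 := computable_blockCode hF hr1
  by_cases hu2 : (fun j => cand2 F r1 j (L (blk j))) ∈ IOE (fun j => F (blk j))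
  · exact ⟨_, recT_list hL primrec_blk.to_comp (computable_cand2 hF hr1), hu2⟩
  obtain ⟨r2, hr2, hlt2, N2, hN2⟩ := finite_of_not_mem_IOE hu2
  have hc2 := computable_blockCode hF hr2
  exfalso
  have hFpos : ∀ i, 0 < F i := by
    intro i
    have h := hlt1 (2 ^ i - 1 + 0)
    rw [blk_eq (Nat.pos_of_ne_zero (by positivity))] at h
    omega
  set c : ℕ → ℕ := fun i => blockCode F r1 i + F i ^ 2 ^ i * blockCode F r2 i with hc
  have hccomp : Computable c :=
    Primrec.nat_add.to_comp.comp hc1 (Primrec.nat_mul.to_comp.comp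
      (primrec_pow.to_comp.comp hF primrec_two_pow.to_comp) hc2)
  -- facts about the codes
  have hlt1' : ∀ i l, l < 2 ^ i → r1 (2 ^ i - 1 + l) < F i := by
    intro i l hl
    have h := hlt1 (2 ^ i - 1 + l)
    rwa [blk_eq hl] at h
  have hlt2' : ∀ i l, l < 2 ^ i → r2 (2 ^ i - 1 + l) < F i := by
    intro i l hl
    have h := hlt2 (2 ^ i - 1 + l)
    rwa [blk_eq hl] at h
  have hb1 : ∀ i, blockCode F r1 i < F i ^ 2 ^ i := fun i => cod_lt _ (hlt1' i)
  have hb2 : ∀ i, blockCode F r2 i < F i ^ 2 ^ i := fun i => cod_lt _ (hlt2' i)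
  have hd1 : ∀ i l, l < 2 ^ i → dig (F i) l (blockCode F r1 i) = r1 (2 ^ i - 1 + l) :=
    fun i l hl => cod_digit _ l hl (hlt1' i)
  have hd2 : ∀ i l, l < 2 ^ i → dig (F i) l (blockCode F r2 i) = r2 (2 ^ i - 1 + l) :=
    fun i l hl => cod_digit _ l hl (hlt2' i)
  have hclt : ∀ i, c i < F i ^ (2 * 2 ^ i) := by
    intro i
    rw [hc, two_mul, pow_add]
    simp only
    have h := Nat.mul_le_mul_left (F i ^ 2 ^ i) (hb2 i)
    rw [Nat.succ_eq_add_one, mul_add, mul_one] at h
    have h' := hb1 i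
    omega
  have hcmod : ∀ i, c i % F i ^ 2 ^ i = blockCode F r1 i := by
    intro i
    rw [hc]
    simp only
    rw [Nat.add_mul_mod_self_left, Nat.mod_eq_of_lt (hb1 i)]
  have hcdig : ∀ i l, dig (F i) (2 ^ i + l) (c i) = dig (F i) l (blockCode F r2 i) := by
    intro i l
    unfold dig
    rw [pow_add, ← Nat.div_div_eq_div_mul, hc]
    simp only
    rw [Nat.add_mul_div_left _ _ (Nat.pow_pos (hFpos i)), Nat.div_eq_of_lt (hb1 i), zero_add]
  have hcdig1 : ∀ i l, l < 2 ^ i → dig (F i) l (c i) = r1 (2 ^ i - 1 + l) := by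
    intro i l hl
    rw [← hd1 i l hl, ← hcmod i]
    unfold dig
    rw [mod_digit _ _ hl]
  obtain ⟨i, hi, hmem⟩ := hcap c hccomp hclt (N1 + N2)
  have hi2 : i < 2 ^ i := Nat.lt_two_pow_self
  rcases selNum_spec ((F i, 2 ^ i), L i) with h | h | h
  · rcases h (c i) hmem with h | h
    · -- infrequent residue
      simp only at h
      have hm : c i ∈ (L i).filter (fun y => y % F i ^ 2 ^ i = blockCode F r1 i) := by
        rw [List.mem_filter]
        exact ⟨hmem, by simp [hcmod i]⟩
      have hlen' : ((L i).filter (fun y => y % F i ^ 2 ^ i = blockCode F r1 i)).length ≤ 2 ^ i := by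
        unfold freq at h
        rw [hcmod i] at h
        exact h
      obtain ⟨l, hl, hTl⟩ := List.mem_iff_getElem.1 hm
      have hl' : l < 2 ^ i := lt_of_lt_of_le hl hlen'
      refine hN2 (2 ^ i - 1 + l) (by omega) ?_
      unfold cand2 pick
      rw [blk_eq hl', pos_eq hl', List.getD_eq_getElem _ _ hl, hTl, hcdig, hd2 i l hl']
    · obtain ⟨l, hl, he⟩ := h
      simp only at hl he
      refine hN1 (2 ^ i - 1 + l) (by omega) ?_
      unfold cand1
      rw [blk_eq hl, pos_eq hl]
      have h3 := hcdig1 i l hl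
      unfold dig at h3 ⊢
      rw [he, h3]
  · have := hlen i
    simp only at h
    omega
  · have := hFpos i
    simp only at h
    omega

end Q206.Ioe
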