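import Pool.Agent.Q206.Ioe.LemmaA

/-!
# `IOE(2 ^ 2 ^ n)` and `IOE(2 ^ 2 ^ (n ^ m))` are Muchnik equivalent
-/

namespace Q206.Ioe

open Filter Encodable

/-! ### Windows -/

/-- start of window `i` -/
def win (i : ℕ) : ℕ := (4 ^ i - 1) / 3

theorem win_spec (i : ℕ) : 3 * win i + 1 = 4 ^ i := by
  have h : (4 ^ i) % 3 = 1 := by
    induction i with
    | zero => rfl
    | succ i ih => rw [pow_succ]; omega
  have h1 : 1 ≤ 4 ^ i := Nat.one_le_pow _ _ (by norm_num)
  unfold win
  omega

theorem win_succ (i : ℕ) : win (i + 1) = win i + 4 ^ i := by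
  have h1 := win_spec i
  have h2 := win_spec (i + 1)
  rw [pow_succ] at h2
  omega

/-- window number of `n` -/
def wix (n : ℕ) : ℕ := Nat.log 4 (3 * n + 1)

theorem win_wix_le (n : ℕ) : win (wix n) ≤ n := by
  have h1 := win_spec (wix n)
  have h2 : 4 ^ wix n ≤ 3 * n + 1 := Nat.pow_log_le_self 4 (by omega)
  omega

theorem lt_win_wix (n : ℕ) : n < win (wix n + 1) := by
  have h1 := win_spec (wix n + 1)
  have h2 : 3 * n + 1 < 4 ^ (wix n + 1) := Nat.lt_pow_succ_log_self (by norm_num) _
  omega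

theorem le_wix {i n : ℕ} (h : win i ≤ n) : i ≤ wix n := by
  have h1 := win_spec i
  exact Nat.le_log_of_pow_le (by norm_num) (by omega)

theorem primrec_win : Primrec win :=
  Primrec.nat_div.comp (Primrec.nat_sub.comp (primrec_pow.comp (Primrec.const 4) Primrec.id)
    (Primrec.const 1)) (Primrec.const 3)

theorem primrec_wix : Primrec wix :=
  (primrec_log (by norm_num)).comp (Primrec.succ.comp
    (Primrec.nat_mul.comp (Primrec.const 3) Primrec.id))

theorem lt_of_blk (j : ℕ) : j < 2 ^ (blk j + 1) := by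
  have : j + 1 < 2 ^ (blk j + 1) := Nat.lt_pow_succ_log_self (by norm_num) _
  omega

/-! ### One amplification step -/

/-- `X` computes the window lists. -/
theorem recT_window {X : ℕ → ℕ} :
    RecT X (fun i => encode ((hist X (win (i + 1))).drop (win i))) := by
  have h1 : RecT X (fun i => encode (hist X (win (i + 1)))) :=
    recT_hist.comp (RecT.of_computable (primrec_win.comp Primrec.succ).to_comp)
  exact recT_list' (L := fun i => hist X (win (i + 1))) h1 (φ := fun i => i) Computable.id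
    (G := fun i l => l.drop (win i))
    ((Primrec.list_drop.comp (primrec_win.comp Primrec.fst) Primrec.snd).to_comp)

theorem step {e p : ℕ → ℕ} (he : Computable e) (hp : Monotone p) {i₀ : ℕ}
    (hep : ∀ i ≥ i₀, e i + i + 1 ≤ p (win i)) {X : ℕ → ℕ} (hX : X ∈ IOE (fun n => 2 ^ 2 ^ p n)) :
    ∃ u, RecT X u ∧ u ∈ IOE (fun j => 2 ^ 2 ^ e (blk j)) := by
  refine lemmaA (F := fun i => 2 ^ 2 ^ e i) ?_ recT_window ?_ ?_
  · exact primrec_pow.to_comp.comp (Computable.const 2)
      (primrec_pow.to_comp.comp (Computable.const 2) he)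
  · intro i
    simp only [List.length_drop, hist, List.length_map, List.length_range]
    rw [win_succ, ← mul_pow]
    norm_num
  · intro c hc hclt N
    have hclt' : ∀ i, c i < 2 ^ 2 ^ (e i + i + 1) := by
      intro i
      refine lt_of_lt_of_eq (hclt i) ?_
      rw [← pow_mul]
      congr 1
      ring
    set r : ℕ → ℕ := fun n => if i₀ ≤ wix n then c (wix n) else 0 with hr
    have hrc : Computable r := by
      have hd : Computable (fun n => decide (i₀ ≤ wix n)) := by
        have : PrimrecPred (fun n => i₀ ≤ wix n) :=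
          Primrec.nat_le.comp (Primrec.const i₀) primrec_wix
        exact this.decide.to_comp
      refine (Computable.cond hd (hc.comp primrec_wix.to_comp) (Computable.const 0)).of_eq ?_
      intro n
      by_cases h : i₀ ≤ wix n <;> simp [hr, h]
    have hrlt : ∀ n, r n < 2 ^ 2 ^ p n := by
      intro n
      by_cases h : i₀ ≤ wix n
      · simp only [hr, h, if_true]
        refine lt_of_lt_of_le (hclt' _) ?_
        refine Nat.pow_le_pow_right (by norm_num) (Nat.pow_le_pow_right (by norm_num) ?_)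
        exact (hep _ h).trans (hp (win_wix_le n))
      · simp only [hr, h, if_false]
        positivity
    have hinf := mem_IOE.1 hX r hrc hrlt
    obtain ⟨n, hn, hn'⟩ := hinf.exists_gt (win (max N i₀))
    have hi : max N i₀ ≤ wix n := le_wix hn'.le
    have hXn : X n = r n := hn
    refine ⟨wix n, (le_max_left _ _).trans hi, ?_⟩
    have h0 : i₀ ≤ wix n := (le_max_right _ _).trans hi
    simp only [hr, h0, if_true] at hXn
    rw [← hXn, List.mem_iff_getElem]
    have h1 := win_wix_le n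
    have h2 := lt_win_wix n
    refine ⟨n - win (wix n), ?_, ?_⟩
    · simp only [List.length_drop, hist, List.length_map, List.length_range]
      omega
    · simp only [List.getElem_drop, hist, List.getElem_map, List.getElem_range]
      congr 1
      omega

/-! ### Muchnik reducibility -/

/-- `B ≤_W C` -/
def MuchLE (B C : Set (ℕ → ℕ)) : Prop :=
  ∀ g ∈ C, ∃ f ∈ B, TuringReducible (f : ℕ →. ℕ) (g : ℕ →. ℕ)

theorem MuchLE.trans {A B C : Set (ℕ → ℕ)} (h1 : MuchLE A B) (h2 : MuchLE B C) : MuchLE A C := by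
  intro g hg
  obtain ⟨f, hf, hfg⟩ := h2 g hg
  obtain ⟨k, hk, hkf⟩ := h1 f hf
  exact ⟨k, hk, hkf.trans hfg⟩

theorem MuchLE.of_subset {B C : Set (ℕ → ℕ)} (h : C ⊆ B) : MuchLE B C :=
  fun g hg => ⟨g, h hg, TuringReducible.refl _⟩

/-- bounds matter only on a tail -/
theorem IOE_subset {h h' : ℕ → ℕ} (hpos : ∀ n, 0 < h' n) {N : ℕ} (hle : ∀ n ≥ N, h n ≤ h' n) :
    IOE h' ⊆ IOE h := by
  intro f hf r hr hlt
  set r' : ℕ → ℕ := fun n => if N ≤ n then r n else 0 with hr'
  have hrc : Computable r' := by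
    have hd : Computable (fun n : ℕ => decide (N ≤ n)) := by
      have : PrimrecPred (fun n : ℕ => N ≤ n) :=
        Primrec.nat_le.comp (Primrec.const N) Primrec.id
      exact this.decide.to_comp
    refine (Computable.cond hd hr (Computable.const 0)).of_eq ?_
    intro n
    by_cases h : N ≤ n <;> simp [hr', h]
  have hlt' : ∀ n, r' n < h' n := by
    intro n
    by_cases h : N ≤ n
    · simp only [hr', h, if_true]
      exact lt_of_lt_of_le (hlt n) (hle n h)
    · simp only [hr', h, if_false]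
      exact hpos n
  have hinf := mem_IOE.1 hf r' hrc hlt'
  refine Set.infinite_of_forall_exists_gt ?_
  intro a
  obtain ⟨n, hn, hn'⟩ := hinf.exists_gt (max a N)
  have hn2 : f n = r' n := hn
  have h0 : N ≤ n := (le_max_right a N).trans hn'.le
  simp only [hr', h0, if_true] at hn2
  exact ⟨n, hn2, lt_of_le_of_lt (le_max_left _ _) hn'⟩

theorem stepLE {e p : ℕ → ℕ} (he : Computable e) (hp : Monotone p) {i₀ : ℕ}
    (hep : ∀ i ≥ i₀, e i + i + 1 ≤ p (win i)) :
    MuchLE (IOE (fun j => 2 ^ 2 ^ e (blk j))) (IOE (fun n => 2 ^ 2 ^ p n)) := by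
  intro X hX
  obtain ⟨u, hu, hu'⟩ := step he hp hep hX
  exact ⟨u, hu', RecursiveIn.iff_nat.2 hu⟩

/-! ### Iteration -/

theorem pow_ge_aux (D : ℕ) : ∃ i₀, 1 ≤ i₀ ∧ ∀ i ≥ i₀, D * (i + 1) ≤ 4 ^ (i - 1) := by
  have h : ∀ i : ℕ, (i + 1) ≤ 2 ^ i := fun i => Nat.lt_two_pow_self
  refine ⟨D + 3, by omega, ?_⟩
  intro i hi
  obtain ⟨k, rfl⟩ : ∃ k, i = k + D + 3 := ⟨i - (D + 3), by omega⟩
  have h1 := h (k + D + 3)
  have h2 := h D
  rw [show k + D + 3 - 1 = k + D + 2 by omega, show (4 : ℕ) = 2 * 2 by norm_num, mul_pow]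
  have h3 : 2 ^ (k + D + 3) = 2 * 2 ^ (k + D + 2) := by rw [pow_succ, mul_comm]
  have h4 : 2 * 2 ^ D ≤ 2 ^ (k + D + 2) := by
    rw [show 2 * 2 ^ D = 2 ^ (D + 1) by rw [pow_succ, mul_comm]]
    exact Nat.pow_le_pow_right (by norm_num) (by omega)
  calc D * (k + D + 3 + 1) ≤ 2 ^ D * (2 * 2 ^ (k + D + 2)) := by
        rw [← h3]; exact Nat.mul_le_mul (by omega) h1
    _ = (2 * 2 ^ D) * 2 ^ (k + D + 2) := by ring
    _ ≤ _ := Nat.mul_le_mul_right _ h4

theorem iterate (t : ℕ) : ∃ C, 0 < C ∧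
    MuchLE (IOE (fun n => 2 ^ 2 ^ (n ^ 2 ^ t / C))) (IOE (fun n => 2 ^ 2 ^ n)) := by
  induction t with
  | zero => exact ⟨1, one_pos, MuchLE.of_subset (by simp)⟩
  | succ t ih =>
    obtain ⟨C, hC, ih⟩ := ih
    set k := 2 ^ t with hk
    have hk1 : 1 ≤ k := Nat.one_le_two_pow
    refine ⟨2 * C * 16 ^ k, by positivity, ?_⟩
    refine MuchLE.trans ?_ ih
    set e : ℕ → ℕ := fun i => 4 ^ (k * (i + 1)) / (2 * C * 16 ^ k) with he
    have hec : Computable e :=
      (Primrec.nat_div.comp (primrec_pow.comp (Primrec.const 4)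
        (Primrec.nat_mul.comp (Primrec.const k) Primrec.succ)) (Primrec.const _)).to_comp
    have hmono : Monotone (fun n : ℕ => n ^ k / C) := by
      intro a b hab
      exact Nat.div_le_div_right (Nat.pow_le_pow_left hab k)
    obtain ⟨i₀, hi₀, hbig⟩ := pow_ge_aux (2 * C)
    have hep : ∀ i ≥ i₀, e i + i + 1 ≤ (fun n : ℕ => n ^ k / C) (win i) := by
      intro i hi
      have hi1 : 1 ≤ i := hi₀.trans hi
      have hw : 4 ^ (i - 1) ≤ win i := by
        have h1 := win_spec i
        obtain ⟨q, rfl⟩ : ∃ q, i = q + 1 := ⟨i - 1, by omega⟩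
        rw [pow_succ] at h1
        have : 1 ≤ 4 ^ q := Nat.one_le_pow _ _ (by norm_num)
        simp only [Nat.add_sub_cancel]
        omega
      set A := 4 ^ (k * (i - 1)) with hA
      have hA1 : A = (4 ^ (i - 1)) ^ k := by rw [hA, ← pow_mul, mul_comm]
      have he1 : e i = A / (2 * C) := by
        rw [he]
        simp only
        have : 4 ^ (k * (i + 1)) = A * 16 ^ k := by
          rw [hA, show (16 : ℕ) = 4 ^ 2 by norm_num, ← pow_mul, ← pow_add]
          congr 1
          obtain ⟨q, rfl⟩ : ∃ q, i = q + 1 := ⟨i - 1, by omega⟩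
          simp only [Nat.add_sub_cancel]
          ring
        rw [this, Nat.mul_div_mul_right _ _ (by positivity)]
      have hA2 : A ≤ win i ^ k := by rw [hA1]; exact Nat.pow_le_pow_left hw k
      have hA3 : 4 ^ (i - 1) ≤ A := by
        rw [hA1]
        exact Nat.le_self_pow (by omega) _
      have hb := hbig i hi
      have h5 : i + 1 ≤ A / (2 * C) := by
        rw [Nat.le_div_iff_mul_le (by positivity)]
        calc (i + 1) * (2 * C) = 2 * C * (i + 1) := by ring
          _ ≤ 4 ^ (i - 1) := hb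
          _ ≤ A := hA3
      have h6 : 2 * (A / (2 * C)) ≤ A / C := by
        rw [Nat.le_div_iff_mul_le hC]
        calc 2 * (A / (2 * C)) * C = (A / (2 * C)) * (2 * C) := by ring
          _ ≤ A := Nat.div_mul_le_self _ _
      have h7 : A / C ≤ win i ^ k / C := Nat.div_le_div_right hA2
      simp only
      rw [he1]
      omega
    refine MuchLE.trans (MuchLE.of_subset ?_) (stepLE hec hmono hep)
    refine IOE_subset (N := 0) (fun n => by positivity) ?_
    intro j _
    refine Nat.pow_le_pow_right (by norm_num) (Nat.pow_le_pow_right (by norm_num) ?_)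
    rw [he]
    simp only
    apply Nat.div_le_div_right
    have hj := (lt_of_blk j).le
    calc j ^ 2 ^ (t + 1) ≤ (2 ^ (blk j + 1)) ^ 2 ^ (t + 1) := Nat.pow_le_pow_left hj _
      _ = 4 ^ (k * (blk j + 1)) := by
        rw [show (4 : ℕ) = 2 ^ 2 by norm_num, ← pow_mul, ← pow_mul, pow_succ, hk]
        congr 1
        ring

theorem main (m : ℕ) : MuchLE (IOE (fun n => 2 ^ 2 ^ (n ^ m))) (IOE (fun n => 2 ^ 2 ^ n)) := by
  obtain ⟨C, hC, h⟩ := iterate m
  refine MuchLE.trans (MuchLE.of_subset ?_) h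
  refine IOE_subset (N := C + 1) (fun n => by positivity) ?_
  intro n hn
  refine Nat.pow_le_pow_right (by norm_num) (Nat.pow_le_pow_right (by norm_num) ?_)
  rw [Nat.le_div_iff_mul_le hC]
  have hm : m + 1 ≤ 2 ^ m := Nat.lt_two_pow_self
  calc n ^ m * C ≤ n ^ m * n := Nat.mul_le_mul_left _ (by omega)
    _ = n ^ (m + 1) := (pow_succ _ _).symm
    _ ≤ n ^ 2 ^ m := Nat.pow_le_pow_right (by omega) hm

end Q206.Ioe
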